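import Pool.Agent.U331.FS.F
import Pool.Agent.Results.MP_ca0a54_nt.AdditiveValues

/-!
# Small gaps between zeta zeros near ALL integral combinations of an infinite sequence in every dense set

Let `0 ≤ η < θ < 1` and `c > 2 / (3 + θ)`. We show that EVERY set `B` of natural numbers with at least `c₀ M / (1 + log M) ^ b` elements up
to `M` for all large `M` contains the terms of an infinite sequence `a_n`, growing at most as `exp (K l ^ n)`, where `l > 1` is arbitrary
and `K` does not depend on `B`, with the following property. For ALL nonzero integral vectors `u` with finite support and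
entries of absolute value at most `H` and for `v = |∑ uᵢ aᵢ|`, for ALL real `t` with `|t - n| ≤ n ^ η` for an integer `n ≥ 1` with
`|n - v| ≤ (1 + log v) ^ A`, the interval `[t, t + t ^ θ]` contains two consecutive ordinates of zeros of `ζ` at distance less than `c`
times the mean spacing `2π / log t`. There is no exception among the infinitely many combinations. For `θ` close to `1` the constant
`c` is close to `1 / 2`.

Proof: a greedy choice. At the step `n` there are at most `(2 H + 1) ^ (n + 1)` conditions for the new term, each of them excludes at
most twice as many integers as there are exceptions, and this number is smaller than the number of the elements of `B` by an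
arbitrary power of the logarithm (`Pool.Agent.U331.FS`; the number of the exceptions is a case of the starting result `AdditiveValues`).
-/

set_option autoImplicit false

namespace Pool.Agent.Results.MP_ca0a54_nt.AllCombinations

open Pool.Agent.U331.FS (AllSumsLog all_sums_log_nat)
open Pool.Agent.Results.MP_ca0a54_nt.AdditiveValues (SmallGap)

/-- For ALL integers `n ≥ 1` with `|n - v| ≤ W` and ALL real `t` with `|t - n| ≤ n ^ η` the interval `[t, t + t ^ θ]` contains two
consecutive ordinates of zeros at distance less than `c (2π / log t)`. -/
def Near (η θ c : ℝ) (W v : ℝ) : Prop :=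
  ∀ n : ℕ, 1 ≤ n → |(n : ℝ) - v| ≤ W → ∀ t : ℝ, |t - n| ≤ (n : ℝ) ^ η → SmallGap c t (t ^ θ)

/-- **Theorem.** For all `0 ≤ η < θ < 1` and `c > 2 / (3 + θ)` the property `Near η θ c` holds for all combinations with bounded
coefficients of an infinite sequence, growing at most as `exp (K l ^ n)`, in every dense set (`AllSumsLog`). -/
theorem result (η θ c : ℝ) (hη : 0 ≤ η) (hηθ : η < θ) (hθ : θ < 1) (hc : 2 / (3 + θ) < c) : AllSumsLog (Near η θ c) := by
  refine (all_sums_log_nat (Good := fun n : ℕ => ∀ t : ℝ, |t - n| ≤ (n : ℝ) ^ η → SmallGap c t (t ^ θ))
    (fun U => ?_)).mono (fun W x _ h' n hn1 hn => h' n hn1 hn)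
  obtain ⟨X₀, h⟩ := AdditiveValues.result.1 [] (by simp) (fun v : ℕ => 1 * (v : ℝ) ^ (1 : ℝ))
    (AdditiveValues.result.2.2.2 1 one_pos) η θ c hη hηθ hθ hc U
  refine ⟨X₀, fun X hX => ?_⟩
  have h2 := h X hX
  simpa only [Pool.Agent.N375.AV.comp, List.foldr_nil, id_eq, one_mul, Real.rpow_one] using h2

end Pool.Agent.Results.MP_ca0a54_nt.AllCombinations
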