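import Pool.Agent.U85.Ml.Mw

set_option autoImplicit false

/-!
# Small gaps in almost every window of bounded length

No hypothesis is assumed. Earlier results give two zeros of zeta whose ordinates differ by less than `c < 1`
mean spacings in long intervals (the whole `[T, 2T]`, all intervals of length `T^θ`, almost all intervals of
length `(log T)^39`). Here the interval has bounded length in units of the mean spacing: for every `κ > 0` and
all `H ≥ H₀(κ)` the window `|γ - t| ≤ H/log T`, which contains `H/π` zeros in the mean, a bounded number,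
contains two zeros (counted with multiplicity) whose ordinates differ by at most `0.825` times the mean spacing
`2π/log T`, for all `t ∈ [T, 2T]` outside a set of measure at most `κT`; and the exceptional set has a share at
most `κ` of the mass `∫ |B(t)|² dt` of EVERY Dirichlet polynomial `B` of length at most `T^θ`. Consequently such
zeros lie near every dense set of heights: if `E ⊆ [T, 2T]` has measure at least `2κT` then at least
`|E| log T/(4H)` zeros within `H/log T` of `E` have such a neighbour.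

The proof: a law of large numbers for the form factor of the zeros in a single window for the frequencies below
`1/2` (sibling `MP_8958e8_nt.AlmostEveryWindow`), used with the Fourier transform of the minorant
`(sin πx/πx)²/(1 - x²)`.
-/

namespace Pool.Agent.Results.MP_ca0a54_nt.MicroscopicWindows

open MeasureTheory

noncomputable section

/-- the Dirichlet polynomial with the coefficients `b_1, ..., b_N` on the critical line -/
def B (N : ℕ) (b : ℕ → ℂ) (t : ℝ) : ℂ := ∑ n ∈ Finset.Icc 1 N, b n * (n : ℂ) ^ (-(1 / 2 + t * Complex.I))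

/-- the mass of the polynomial on a set of heights -/
def mass (N : ℕ) (b : ℕ → ℂ) (E : Set ℝ) : ℝ := ∫ t in E, ‖B N b t‖ ^ 2

/-- the nontrivial zeros of zeta -/
def IsZero (s : ℂ) : Prop := riemannZeta s = 0 ∧ 0 < s.re ∧ s.re < 1

/-- two zeros with `|γ - t| ≤ r`, counted with multiplicity, have ordinates which differ by at most `d` -/
def SmallGap (t r d : ℝ) : Prop :=
  ∃ s s' : ℂ, IsZero s ∧ IsZero s' ∧ |s.im - t| ≤ r ∧ |s'.im - t| ≤ r ∧ |s.im - s'.im| ≤ d ∧
    (s ≠ s' ∨ 2 ≤ analyticOrderNatAt riemannZeta s)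

/-- the mean spacing of the ordinates near `T`, times `0.825` -/
def d (T : ℝ) : ℝ := 0.825 * (2 * Real.pi / Real.log T)

/-- the `t ∈ [T, 2T]` without a small gap within `H/log T` -/
def without (T H : ℝ) : Set ℝ := {t : ℝ | t ∈ Set.Icc T (2 * T) ∧ ¬ SmallGap t (H / Real.log T) (d T)}

/-- the number of zeros `s` within `r` of the set `E` (each counted once) which are multiple or have another zero
at a distance at most `d` in the ordinate -/
def close (E : Set ℝ) (r d : ℝ) : ℕ :=
  {s : ℂ | IsZero s ∧ (2 ≤ analyticOrderNatAt riemannZeta s ∨ ∃ s' : ℂ, s' ≠ s ∧ IsZero s' ∧ |s.im - s'.im| ≤ d) ∧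
    ∃ t ∈ E, |s.im - t| ≤ r}.ncard

lemma small_eq (t r d : ℝ) : SmallGap t r d ↔ Pool.Agent.U85.Ml.Clo t r d := by
  unfold SmallGap Pool.Agent.U85.Ml.Clo Pool.Agent.U85.Ml.zw IsZero
  constructor
  · rintro ⟨s, s', ⟨a1, a2, a3⟩, ⟨b1, b2, b3⟩, c1, c2, c3, c4⟩
    exact ⟨s, ⟨a1, a2, a3, c1⟩, s', ⟨b1, b2, b3, c2⟩, c3, c4⟩
  · rintro ⟨s, ⟨a1, a2, a3, c1⟩, s', ⟨b1, b2, b3, c2⟩, c3, c4⟩
    exact ⟨s, s', ⟨a1, a2, a3⟩, ⟨b1, b2, b3⟩, c1, c2, c3, c4⟩

lemma close_eq (E : Set ℝ) (r d : ℝ) : close E r d = Set.ncard {s : ℂ | riemannZeta s = 0 ∧ 0 < s.re ∧ s.re < 1 ∧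
    Pool.Agent.U85.Ml.Pr d s ∧ ∃ t ∈ E, |s.im - t| ≤ r} := by
  unfold close
  congr 1
  ext s
  simp only [IsZero, Pool.Agent.U85.Ml.Pr, Set.mem_ofPred_eq, and_assoc]

/-- **Small gaps in almost every window of bounded length.** -/
theorem result (κ : ℝ) (hκ : 0 < κ) :
    ∃ H₀ : ℝ, 1 ≤ H₀ ∧ ∀ H : ℝ, H₀ ≤ H → ∃ θ T₀ : ℝ, 0 < θ ∧ 1 ≤ T₀ ∧ ∀ T : ℝ, T₀ ≤ T →
      (∀ N : ℕ, (N : ℝ) ≤ T ^ θ → ∀ b : ℕ → ℂ,
        mass N b (without T H) ≤ κ * mass N b (Set.Icc T (2 * T))) ∧
      volume.real (without T H) ≤ κ * T ∧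
      ∀ E : Set ℝ, MeasurableSet E → E ⊆ Set.Icc T (2 * T) → 2 * κ * T ≤ volume.real E →
        volume.real E * (Real.log T / (4 * H)) ≤ (close E (H / Real.log T) (d T) : ℝ) := by
  have e : ∀ T H : ℝ, without T H = {t : ℝ | t ∈ Set.Icc T (2 * T) ∧
      ¬ Pool.Agent.U85.Ml.Clo t (H / Real.log T) (0.825 * (2 * Real.pi / Real.log T))} := by
    intro T H
    unfold without d
    simp only [small_eq]
  simp only [e, close_eq]
  exact Pool.Agent.U85.Ml.micro_all κ hκ

end

end Pool.Agent.Results.MP_ca0a54_nt.MicroscopicWindows
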