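import Pool.Agent.U449.BV.M
import Pool.Agent.Results.MP_ca0a54_nt.AdditiveValues

/-!
# Small gaps between zeta zeros near values of mixed polynomials on arbitrary dense sets

Let `0 ≤ η < θ < 1` and `c > 2 / (3 + θ)`. Let `p` be a prime, `f(x, y)` ANY polynomial modulo `p` of degree at most `d` with a monomial
which contains both variables (for example `f = x y`), let `A`, `B` be ARBITRARY sets of residues modulo `p`, and `g`, `h` ARBITRARY
functions. For all but `Θ |A| |B|` of the pairs `(a, b)` in `A × B`, where `Θ ^ 2 = C d (p / |A| + W p / |B|) / (1 + log p) ^ U` (`U` arbitrary, `C` depends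
only on `η`, `θ`, `c`, `U`), for ALL integers `n ≥ 1` at a distance of at most `W` from the least residue of `f(a, b) + g(a) + h(b)` and ALL
real `t` with `|t - n| ≤ n ^ η` the interval `[t, t + t ^ θ]` contains two consecutive ordinates of zeros of `ζ` at distance less than `c`
times the mean spacing `2π / log t`. So this holds for almost all pairs if `A`, `B` have at least `p / (log p) ^ K` elements and
`W ≤ (log p) ^ K`. For `θ` close to `1` the constant `c` is close to `1 / 2`. More generally, this holds for all functions `F(a, b)` with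
few coincidences (`Rare`), for instance `f(a, b) + g(a) + h(b)` for integers `a`, `b` and real functions `g`, `h`.

Since the sets and the functions `g` and `h` are arbitrary, the values have no arithmetic structure, and a value may be
taken by very many pairs. So the number of the exceptions (a case of the starting result `AdditiveValues`) does not give the result
directly. Proof: the inequality of Cauchy and Schwarz; for most pairs `a, a'` the difference `F(a, b) - F(a', b)` is small for few
`b` (`Pool.Agent.U449.BV`).
-/

set_option autoImplicit false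

namespace Pool.Agent.Results.MP_ca0a54_nt.MixedOnDenseSets

open Pool.Agent.U449.BV (Rare OnDense on_dense_nat polys residues)
open Pool.Agent.Results.MP_ca0a54_nt.AdditiveValues (SmallGap)

/-- For ALL integers `n ≥ 1` with `|n - v| ≤ W` and ALL real `t` with `|t - n| ≤ n ^ η` the interval `[t, t + t ^ θ]` contains two
consecutive ordinates of zeros at distance less than `c (2π / log t)`. -/
def Near (η θ c : ℝ) (W v : ℝ) : Prop :=
  ∀ n : ℕ, 1 ≤ n → |(n : ℝ) - v| ≤ W → ∀ t : ℝ, |t - n| ≤ (n : ℝ) ^ η → SmallGap c t (t ^ θ)

/-- **Theorem.** (1) For all `0 ≤ η < θ < 1`, `c > 2 / (3 + θ)` and all `U` the property `Near η θ c` holds for almost all the values of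
functions of two variables with few coincidences on arbitrary dense sets, with the saving `(1 + log X) ^ U` (`OnDense`). (2)
Coincidences are rare for `f(a, b) + g(a) + h(b)`, where `f` is any integer polynomial with a monomial which contains both variables,
and `g` and `h` are arbitrary real functions, on arbitrary finite sets of integers. (3) The same is true of the least residues of
`f(a, b) + g(a) + h(b)` modulo a prime `p`. -/
theorem result :
    (∀ η θ c : ℝ, 0 ≤ η → η < θ → θ < 1 → 2 / (3 + θ) < c → ∀ U : ℕ,
      OnDense (fun X => 1 / (1 + Real.log X) ^ (U : ℝ)) (Near η θ c)) ∧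
    (∀ (d : ℕ) (f : MvPolynomial (Fin 2) ℤ), f.totalDegree ≤ d → (∃ m ∈ f.support, m 0 ≠ 0 ∧ m 1 ≠ 0) →
      ∀ (g h : ℤ → ℝ) (A B : Finset ℤ),
        Rare d A B (fun a b => ((MvPolynomial.eval ![a, b] f : ℤ) : ℝ) + g a + h b)) ∧
    ∀ (p : ℕ) [Fact p.Prime] (d : ℕ) (f : MvPolynomial (Fin 2) (ZMod p)), f.totalDegree ≤ d →
      (∃ m ∈ f.support, m 0 ≠ 0 ∧ m 1 ≠ 0) → ∀ (g h : ZMod p → ZMod p) (A B : Finset (ZMod p)),
        Rare d A B (fun a b => (((MvPolynomial.eval ![a, b] f + g a + h b).val : ℕ) : ℝ)) := by
  refine ⟨fun η θ c hη hηθ hθ hc U => ?_, polys, residues⟩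
  refine (on_dense_nat (Good := fun n : ℕ => ∀ t : ℝ, |t - n| ≤ (n : ℝ) ^ η → SmallGap c t (t ^ θ)) (s := (U : ℝ)) (K := 1)
    (Nat.cast_nonneg U) ?_).mono (fun W x _ h' n hn1 hn => h' n hn1 hn)
  obtain ⟨X₀, h⟩ := AdditiveValues.result.1 [] (by simp) (fun v : ℕ => 1 * (v : ℝ) ^ (1 : ℝ))
    (AdditiveValues.result.2.2.2 1 one_pos) η θ c hη hηθ hθ hc U
  refine ⟨X₀, fun X hX => ?_⟩
  have h2 := h X hX
  rw [one_mul, Real.rpow_natCast]
  simpa only [Pool.Agent.N375.AV.comp, List.foldr_nil, id_eq, one_mul, Real.rpow_one] using h2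

end Pool.Agent.Results.MP_ca0a54_nt.MixedOnDenseSets
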