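import Pool.Agent.U761.SZ.RGG

set_option autoImplicit false

/-!
# Small r-gaps between the ordinates of the zeros, unconditionally

Let `γ 1 ≤ γ 2 ≤ ...` be the ordinates of the nontrivial zeros of zeta in the upper half plane, with multiplicity.

Without any hypothesis there are constants `c, C > 0` such that for all large `T`, for all `1 ≤ r ≤ c log T / log log T` and all
`0 ≤ V ≤ c √r` at least `T log T exp (-C (1 + V² / log (2 + r / (1 + V²))))` of the `n` with `T < γ n ≤ 2T` satisfy

`γ (n + r) - γ n ≤ (2π / log T) (r - V)`.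

With `V = c √r`: for every fixed `r` a positive proportion of the `r`-gaps is at most `(2π / log T)(r - c √r)`, with an absolute constant
`c`. Selberg announced `r - c r^(1/3)` unconditionally, and `r - c √r` (for infinitely many `n`) under the Riemann hypothesis.
With `V = c √(log (1 + r))`: the proportion of the `r`-gaps below `(2π / log T)(r - V)` is bounded below uniformly in `r`; this is the
order of the standard deviation of the number of eigenvalues in an interval of `r` mean spacings in the Gaussian unitary ensemble.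

The proof: large deviations of the number of zeros in windows (`Pool.Agent.U761.SZ.zdev`), which give a set of real numbers `t`; the
passage from the measure of the `t` to the number of the `n` by an unconditional bound for the sum of the squares of the gaps,
`∑ (γ (n + 1) - γ n)² ≤ C T / log T` over `T < γ n ≤ 2T` (`Pool.Agent.U761.SZ.gap2`); and for bounded `r` a sum over `k` consecutive
`r`-gaps.
-/

namespace Pool.Agent.Results.MP_ca0a54_nt.RGapsSquareRoot

open Filter

noncomputable section

/-- the number of the zeros `β + iγ` of zeta with `0 < β < 1` and `0 < γ ≤ t`, with multiplicity -/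
def N (t : ℝ) : ℕ :=
  ∑ᶠ s ∈ {s : ℂ | riemannZeta s = 0 ∧ 0 < s.re ∧ s.re < 1 ∧ 0 < s.im ∧ s.im ≤ t}, analyticOrderNatAt riemannZeta s

/-- the `n`-th ordinate (`n ≥ 1`), in non-decreasing order, with multiplicity -/
def γ (n : ℕ) : ℝ := sInf {t : ℝ | n ≤ N t}

/-- **Small r-gaps.** -/
theorem result : ∃ c C T₀ : ℝ, 0 < c ∧ 0 < C ∧ ∀ T : ℝ, T₀ ≤ T → ∀ r : ℕ, 1 ≤ r →
    (r : ℝ) ≤ c * (Real.log T / Real.log (Real.log T)) → ∀ V : ℝ, 0 ≤ V → V ≤ c * Real.sqrt r →
      T * Real.log T * Real.exp (-(C * (1 + V ^ 2 / Real.log (2 + r / (1 + V ^ 2))))) ≤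
        ({n : ℕ | 1 ≤ n ∧ T < γ n ∧ γ n ≤ 2 * T ∧ γ (n + r) - γ n ≤ 2 * Real.pi / Real.log T * (r - V)}.ncard : ℝ) := by
  obtain ⟨c, C, hc, hC, h⟩ := Pool.Agent.U761.SZ.rgaps1
  obtain ⟨T₀, hT₀⟩ := Filter.eventually_atTop.1 h
  exact ⟨c, C, T₀, hc, hC, fun T hT r hr hrT V hV0 hV => (hT₀ T hT r hr hrT V hV0 hV).2⟩

end

end Pool.Agent.Results.MP_ca0a54_nt.RGapsSquareRoot
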